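import Pool.Agent.H20.PX.Sum
import Pool.Agent.H45.ALG.Act

/-!
The fields `M_r^s` and their `p`-analogue.
-/

namespace PX

open IntermediateField

variable {k K : Type*} [Field k] [Field K] [Algebra k K]
variable (p : ℕ) [Fact p.Prime] [CharP k p] [CharP K p] [IsAlgClosed k] [IsAlgClosed K]
variable {n : ℕ} (x : Fin n → K)

omit [CharP k p] [CharP K p] [IsAlgClosed k] [IsAlgClosed K] in
theorem pcl_adjoin_le_bracket {r : ℕ} (t : Fin r → K) :
    pcl p (adjoin k (Set.range t)) ≤ ALG.bracket (k := k) t := by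
  rw [ALG.bracket_eq]
  exact pcl_le_ac p _

/-- `k(T)` as `k(T, …, T)` -/
theorem adjoin_const {r : ℕ} (hr : 1 ≤ r) (T : K) :
    adjoin k (Set.range (fun _ : Fin r => T)) = adjoin k {T} := by
  haveI : Nonempty (Fin r) := ⟨⟨0, hr⟩⟩
  rw [Set.range_const]

/-- (2) -/
theorem pcl_M_le {r : ℕ} (hr : 1 ≤ r) (s : ℕ) (hs : 1 ≤ s) :
    pcl p (ALG.M k x r s) ≤ ALG.M k x r (s + 1) := by
  obtain ⟨s, rfl⟩ := Nat.exists_eq_add_of_le' hs
  set F := ALG.M k x r (s + 1) with hF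
  have hM : ALG.M k x r (s + 1 + 1) =
      ⨆ t : {t : Fin r → K // ∀ i, t i ∈ ALG.M k x r (s + 1)}, ALG.bracket t.1 := rfl
  have h1 : ∀ T ∈ F, pcl p (adjoin k {T}) ≤ ALG.M k x r (s + 1 + 1) := by
    intro T hT
    rw [← adjoin_const hr T, hM]
    refine (pcl_adjoin_le_bracket p _).trans ?_
    exact le_iSup (fun t : {t : Fin r → K // ∀ i, t i ∈ ALG.M k x r (s + 1)} =>
      ALG.bracket (k := k) t.1) ⟨fun _ => T, fun _ => hT⟩
  have h2 : F ≤ ALG.M k x r (s + 1 + 1) := by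
    intro T hT
    exact h1 T hT (le_pcl p _ (mem_adjoin_simple_self k T))
  intro e he
  obtain ⟨N, c, T, z, hc, hT, hz, rfl⟩ := (mem_pcl_iff p F e).1 he
  exact sum_mem (fun i _ => mul_mem (h2 (hc i)) (h1 _ (hT i) (hz i)))

omit [IsAlgClosed k] [IsAlgClosed K] [CharP k p] [CharP K p] in
theorem PM_le (r : ℕ) (s : ℕ) : PM p k x r s ≤ pcl p (adjoin k (Set.range x)) := by
  induction s with
  | zero => exact le_pcl p _
  | succ s ih =>
    cases s with
    | zero => exact le_pcl p _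
    | succ s =>
      refine iSup_le (fun t => ?_)
      rw [← pcl_pcl p (adjoin k (Set.range x))]
      refine pcl_mono ?_
      rw [adjoin_le_iff]
      rintro _ ⟨i, rfl⟩
      exact ih (t.2 i)

/-- the chain is increasing -/
theorem PM_step {r : ℕ} (hr : 1 ≤ r) (s : ℕ) (hs : 1 ≤ s) :
    pcl p (PM p k x r s) ≤ PM p k x r (s + 1) := by
  obtain ⟨s, rfl⟩ := Nat.exists_eq_add_of_le' hs
  set F := PM p k x r (s + 1) with hF
  have hM : PM p k x r (s + 1 + 1) =
      ⨆ t : {t : Fin r → K // ∀ i, t i ∈ PM p k x r (s + 1)},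
        pcl p (adjoin k (Set.range t.1)) := rfl
  have h1 : ∀ T ∈ F, pcl p (adjoin k {T}) ≤ PM p k x r (s + 1 + 1) := by
    intro T hT
    rw [← adjoin_const hr T, hM]
    exact le_iSup (fun t : {t : Fin r → K // ∀ i, t i ∈ PM p k x r (s + 1)} =>
      pcl p (adjoin k (Set.range t.1))) ⟨fun _ => T, fun _ => hT⟩
  have h2 : F ≤ PM p k x r (s + 1 + 1) := by
    intro T hT
    exact h1 T hT (le_pcl p _ (mem_adjoin_simple_self k T))
  intro e he
  obtain ⟨N, c, T, z, hc, hT, hz, rfl⟩ := (mem_pcl_iff p F e).1 he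
  exact sum_mem (fun i _ => mul_mem (h2 (hc i)) (h1 _ (hT i) (hz i)))

theorem PM_ge {r : ℕ} (hr : 1 ≤ r) (s : ℕ) : pcl p (adjoin k (Set.range x)) ≤
    PM p k x r (s + 2) := by
  induction s with
  | zero => exact PM_step (k := k) p x hr 1 le_rfl
  | succ s ih =>
    have h1 := PM_step (k := k) p x hr (s + 2) (by omega)
    exact ih.trans ((le_pcl p _).trans h1)

/-- the fields `P_r^s`, `s ≥ 2` -/
theorem PM_eq {r : ℕ} (hr : 1 ≤ r) {s : ℕ} (hs : 2 ≤ s) :
    PM p k x r s = pcl p (adjoin k (Set.range x)) := by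
  obtain ⟨s, rfl⟩ := Nat.exists_eq_add_of_le' hs
  exact le_antisymm (PM_le p x r _) (PM_ge p x hr s)

end PX
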