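import Pool.Agent.H20.PX.Key

/-!
Brackets (iterated Artin-Schreier elements) and their span.
-/

namespace PX

open IntermediateField

variable {k K : Type*} [Field k] [Field K] [Algebra k K]

/-- `Br p l z`: `z` is an iterated Artin-Schreier element with entries `l` (last entry first) -/
inductive Br (p : ℕ) : List K → K → Prop
  | nil : Br p [] 1
  | cons {l : List K} {a y z : K} (h : Br p l y) (hz : z ^ p - z = y * a) : Br p (a :: l) z

/-- the span over `F` of the brackets of length `< n` -/
noncomputable def TT (p : ℕ) (F : IntermediateField k K) (n : ℕ) : Submodule F K :=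
  Submodule.span F {z | ∃ l : List K, (∀ a ∈ l, a ∈ F) ∧ l.length < n ∧ Br p l z}

variable (p : ℕ) [Fact p.Prime] [CharP k p] [CharP K p] [IsAlgClosed k] [IsAlgClosed K]
variable (F : IntermediateField k K)

omit [CharP k p] [CharP K p] [IsAlgClosed k] in
theorem exists_br (l : List K) : ∃ z, Br p l z := by
  induction l with
  | nil => exact ⟨1, .nil⟩
  | cons a l ih =>
    obtain ⟨y, hy⟩ := ih
    obtain ⟨z, hz⟩ := exists_as (L := K) p (y * a)
    exact ⟨z, .cons hy hz⟩

omit [CharP k p] [CharP K p] [IsAlgClosed K] in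
/-- solutions of `z ^ p = z` lie in `k` -/
theorem mem_of_as_zero {z : K} (h : z ^ p - z = 0) : z ∈ F := by
  have hp := (Fact.out : p.Prime).two_le
  by_cases hz : z = 0
  · rw [hz]; exact zero_mem F
  · have h1 : z ^ (p - 1) = 1 ^ (p - 1) := by
      have h2 : z ^ (p - 1) * z = 1 * z := by
        rw [← pow_succ, Nat.sub_add_cancel (by omega), one_mul]
        exact sub_eq_zero.1 h
      rw [one_pow]
      exact mul_right_cancel₀ hz h2
    obtain ⟨c, hc⟩ := ALG.exists_algebraMap_of_pow (k := k) (p - 1) (by omega) h1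
    rw [hc, mul_one]
    exact F.algebraMap_mem c

variable {F}

omit [Fact p.Prime] [CharP k p] [CharP K p] [IsAlgClosed k] [IsAlgClosed K] in
theorem TT_mono {m n : ℕ} (h : m ≤ n) : TT p F m ≤ TT p F n :=
  Submodule.span_mono (fun _ ⟨l, h1, h2, h3⟩ => ⟨l, h1, lt_of_lt_of_le h2 h, h3⟩)

omit [Fact p.Prime] [CharP k p] [CharP K p] [IsAlgClosed k] [IsAlgClosed K] in
theorem br_mem {l : List K} (hl : ∀ a ∈ l, a ∈ F) {z : K} (hz : Br p l z) {n : ℕ}
    (hn : l.length < n) : z ∈ TT p F n := Submodule.subset_span ⟨l, hl, hn, hz⟩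

omit [Fact p.Prime] [CharP k p] [CharP K p] [IsAlgClosed k] [IsAlgClosed K] in
theorem mem_TT_of_mem {z : K} (hz : z ∈ F) {n : ℕ} (hn : 0 < n) : z ∈ TT p F n := by
  have h1 : (1 : K) ∈ TT p F n := br_mem p (l := []) (by simp) .nil hn
  have h2 := (TT p F n).smul_mem (⟨z, hz⟩ : F) h1
  have h3 : (⟨z, hz⟩ : F) • (1 : K) = z := by
    change z * 1 = z
    rw [mul_one]
  rwa [h3] at h2

omit [Fact p.Prime] [CharP k p] [CharP K p] [IsAlgClosed k] [IsAlgClosed K] in
theorem mul_mem_TT {c z : K} (hc : c ∈ F) {n : ℕ} (hz : z ∈ TT p F n) : c * z ∈ TT p F n :=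
  (TT p F n).smul_mem (⟨c, hc⟩ : F) hz

omit [CharP k p] in
/-- L1 -/
theorem as_mem {n : ℕ} {u : K} (hu : u ∈ TT p F n) : ∀ a ∈ F, ∀ z : K, z ^ p - z = u * a →
    z ∈ TT p F (n + 1) := by
  induction hu using Submodule.span_induction with
  | mem u hu =>
    obtain ⟨l, hl, hn, hbr⟩ := hu
    intro a ha z hz
    refine br_mem p (l := a :: l) ?_ (.cons hbr hz) (by simpa using hn)
    intro b hb
    rcases List.mem_cons.1 hb with h | h
    · rw [h]; exact ha
    · exact hl b h
  | zero =>
    intro a _ z hz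
    rw [zero_mul] at hz
    exact mem_TT_of_mem p (mem_of_as_zero p F hz) (Nat.succ_pos n)
  | add u v _ _ hu hv =>
    intro a ha z hz
    obtain ⟨z₁, h₁⟩ := exists_as (L := K) p (u * a)
    have h2 : (z - z₁) ^ p - (z - z₁) = v * a := by
      rw [sub_as, hz, h₁]; ring
    have h3 := add_mem (hu a ha z₁ h₁) (hv a ha _ h2)
    rwa [add_sub_cancel] at h3
  | smul c u _ hu =>
    intro a ha z hz
    refine hu (c * a) (mul_mem c.2 ha) z ?_
    rw [hz]
    change (c : K) * u * a = u * (c * a)
    ring

omit [CharP k p] in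
/-- helper for L2 -/
theorem as_br_mem {l : List K} (hl : ∀ a ∈ l, a ∈ F) {y : K} (hy : Br p l y) {c v : K}
    (hc : c ∈ F) (hv : v ^ p - v = (y ^ p - y) * c) : v ∈ TT p F (l.length + 1) := by
  cases hy with
  | nil =>
    rw [one_pow, sub_self, zero_mul] at hv
    exact mem_TT_of_mem p (mem_of_as_zero p F hv) (Nat.succ_pos _)
  | @cons l a y₁ _ h hz =>
    rw [hz, mul_assoc] at hv
    refine br_mem p (l := (a * c) :: l) ?_ (.cons h hv) (by simp)
    intro b hb
    rcases List.mem_cons.1 hb with h | h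
    · rw [h]; exact mul_mem (hl a (by simp)) hc
    · exact hl b (by simp [h])

omit [CharP k p] in
/-- L2 -/
theorem br_sub_mem {l l' : List K} (h : List.Forall₂ (fun a a' => ∃ b ∈ F, a - a' = b ^ p - b) l l')
    (hl : ∀ a ∈ l, a ∈ F) (hl' : ∀ a ∈ l', a ∈ F) {z z' : K} (hz : Br p l z) (hz' : Br p l' z') :
    z - z' ∈ TT p F l.length := by
  induction h generalizing z z' with
  | nil =>
    cases hz; cases hz'
    rw [sub_self]; exact zero_mem _
  | @cons a a' l l' hab _ ih =>
    cases hz with
    | @cons _ _ y _ hy hz =>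
    cases hz' with
    | @cons _ _ y' _ hy' hz' =>
    obtain ⟨b, hb, hab⟩ := hab
    have hlF : ∀ c ∈ l, c ∈ F := fun c hc => hl c (by simp [hc])
    have hl'F : ∀ c ∈ l', c ∈ F := fun c hc => hl' c (by simp [hc])
    have h1 := ih hlF hl'F hy hy'
    obtain ⟨v, hv⟩ := exists_as (L := K) p ((y - y') * a')
    have h2 := as_mem p h1 a' (hl' a' (by simp)) v hv
    obtain ⟨v', hv'⟩ := exists_as (L := K) p ((y ^ p - y) * b ^ p)
    have h3 := as_br_mem p hlF hy (pow_mem hb p) hv'
    have h4 : b * y ∈ TT p F (l.length + 1) := mul_mem_TT p hb (br_mem p hlF hy (Nat.lt_succ_self _))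
    have h5 : (z - z' - (v + b * y - v')) ^ p - (z - z' - (v + b * y - v')) = 0 := by
      rw [sub_as, sub_as, sub_as, add_as, hz, hz', hv, hv', mul_pow]
      linear_combination y * hab
    have h6 := mem_TT_of_mem p (mem_of_as_zero p F h5) (Nat.succ_pos l.length)
    have h7 := add_mem h6 (sub_mem (add_mem h2 h4) h3)
    rw [List.length_cons]
    convert h7 using 1
    ring

omit [CharP k p] in
/-- L4 for brackets -/
theorem br_mul_mem {l : List K} (hl : ∀ a ∈ l, a ∈ F) : ∀ {m : List K}, (∀ a ∈ m, a ∈ F) →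
    ∀ {y z : K}, Br p l y → Br p m z → y * z ∈ TT p F (l.length + m.length + 1) := by
  induction l with
  | nil =>
    intro m hm y z hy hz
    cases hy
    rw [one_mul]
    exact br_mem p hm hz (by simp)
  | cons a l ih =>
    have hlF : ∀ c ∈ l, c ∈ F := fun c hc => hl c (by simp [hc])
    have haF : a ∈ F := hl a (by simp)
    intro m
    induction m with
    | nil =>
      intro _ y z hy hz
      cases hz
      rw [mul_one]
      exact br_mem p hl hy (by simp)
    | cons b m ihm =>
      intro hm y z hy hz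
      have hmF : ∀ c ∈ m, c ∈ F := fun c hc => hm c (by simp [hc])
      have hbF : b ∈ F := hm b (by simp)
      have hy' := hy
      have hz' := hz
      cases hy with
      | @cons _ _ y₀ _ hy₀ hya =>
      cases hz with
      | @cons _ _ z₀ _ hz₀ hza =>
      have h1 : y * z₀ ∈ TT p F ((a :: l).length + (b :: m).length) := by
        have := ihm hmF hy' hz₀
        exact TT_mono p (by simp only [List.length_cons]; omega) this
      have h2 : y₀ * z ∈ TT p F ((a :: l).length + (b :: m).length) := by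
        have := ih hlF hm hy₀ hz'
        exact TT_mono p (by simp only [List.length_cons]; omega) this
      have h3 : y₀ * z₀ ∈ TT p F ((a :: l).length + (b :: m).length) := by
        have := ih hlF hmF hy₀ hz₀
        exact TT_mono p (by simp only [List.length_cons]; omega) this
      have h4 := add_mem (add_mem (mul_mem_TT p hbF h1) (mul_mem_TT p haF h2))
        (mul_mem_TT p (mul_mem haF hbF) h3)
      refine as_mem p h4 1 (one_mem F) (y * z) ?_
      have e1 : y ^ p = y + y₀ * a := by linear_combination hya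
      have e2 : z ^ p = z + z₀ * b := by linear_combination hza
      rw [mul_pow, e1, e2]
      ring

omit [CharP k p] in
/-- L4 -/
theorem mul_mem_TT' {m n : ℕ} {u v : K} (hu : u ∈ TT p F m) (hv : v ∈ TT p F n) :
    u * v ∈ TT p F (m + n) := by
  have h1 : TT p F m * TT p F n ≤ TT p F (m + n) := by
    rw [TT, TT, Submodule.span_mul_span, Submodule.span_le]
    rintro _ ⟨y, ⟨l, hl, hlm, hy⟩, z, ⟨l', hl', hln, hz⟩, rfl⟩
    exact TT_mono p (by omega) (br_mul_mem p hl hl' hy hz)
  exact h1 (Submodule.mul_mem_mul hu hv)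

end PX
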