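import Pool.Agent.H20.PX.Mov

/-!
The iterated commutator moves the iterated bracket.
-/

set_option linter.style.haveILetI false

namespace PX

open IntermediateField

variable {k K : Type*} [Field k] [Field K] [Algebra k K]

/-- Artin-Schreier elements over an algebraically closed field -/
theorem as_mem_ac (p : ℕ) [Fact p.Prime] {Ω : IntermediateField k K} (hΩ : ALG.ac Ω = Ω) {z : K}
    (hz : z ^ p - z ∈ Ω) : z ∈ Ω := by
  have h1 : z ∈ pcl p Ω := pcl_closed (le_pcl p Ω hz)
  rw [← hΩ]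
  exact pcl_le_ac p Ω h1

/-- the iterated commutator -/
theorem exists_comm [IsAlgClosed k] [IsAlgClosed K] (p : ℕ) [Fact p.Prime] [CharP K p]
    (F : IntermediateField k K) {m ℓ : ℕ} (hℓ : 1 ≤ ℓ) (b : ℕ → K)
    (Ω : ℕ → IntermediateField k K) (hΩ : ∀ i < m, ALG.ac (Ω i) = Ω i)
    (hb : ∀ i < m, b i ∉ Ω i) (hbj : ∀ i < m, ∀ j, j ≠ i → b j ∈ Ω i)
    (htop : ∀ i < m, ALG.ac (Ω i ⊔ k⟮b i⟯) = ⊤) (hbF : ∀ i < m, b i ^ ℓ ∈ F)
    (hF : ∀ i < m, F ≤ Ω i ⊔ k⟮b i⟯)
    (hΩs : ∀ i < m, ∀ ν ∈ F.fixingSubgroup, ∀ z ∈ Ω i, ν z ∈ Ω i)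
    {ι : Type*} (W : ι → IntermediateField k K)
    (hW : ∀ i, ∀ ν ∈ F.fixingSubgroup, ∀ z ∈ W i, ν z ∈ W i)
    (S : Finset ι) (idx : ι → ℕ)
    (hS : ∀ i ∈ S, ∃ ν ∈ F.fixingSubgroup, ν ∈ (W i).fixingSubgroup ∧ ν (b (idx i)) ≠ b (idx i))
    (e : ℕ → K) (he0 : e 0 = 1) (he : ∀ j, e (j + 1) ^ p - e (j + 1) = e j * b j) :
    ∀ j, j + 1 ≤ m → ∃ D ∈ F.fixingSubgroup, (∀ i, D (b i) = b i) ∧
      (∀ i, j < i → i < m → ∀ z : K, z ^ p - z = b i → D z = z) ∧
      (∀ s ∈ S, idx s ≤ j → D ∈ (W s).fixingSubgroup) ∧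
      ∃ η : k, η ≠ 0 ∧ η ^ p = η ∧ D (e (j + 1)) = e (j + 1) + algebraMap k K η := by
  classical
  -- the element for one class
  have hcl : ∀ i < m, ∃ g ∈ (Ω i).fixingSubgroup, g ∈ F.fixingSubgroup ∧ (∀ j, g (b j) = b j) ∧
      (∀ s ∈ S, idx s = i → g ∈ (W s).fixingSubgroup) ∧ ∀ z : K, z ^ p - z = b i → g z ≠ z := by
    intro i hi
    obtain ⟨g, hg, hgb, hgF, hgS, hgz⟩ := class_lemma p F (Ω i) (hΩ i hi) (hb i hi) (htop i hi)
      hℓ (hbF i hi) (hF i hi) (hΩs i hi) W hW (S.filter (fun s => idx s = i)) (by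
        intro s hs
        rw [Finset.mem_filter] at hs
        rw [← hs.2]
        exact hS s hs.1) 1 one_ne_zero
    refine ⟨g, hg, hgF, ?_, ?_, ?_⟩
    · intro j
      by_cases hji : j = i
      · rw [hji]; exact hgb
      · exact ALG.mem_fs.1 hg _ (hbj i hi j hji)
    · intro s hs hsi
      exact hgS s (Finset.mem_filter.2 ⟨hs, hsi⟩)
    · intro z hz
      exact hgz z (by rw [hz, map_one, one_mul])
  -- the brackets of the earlier variables
  have hemem : ∀ i < m, ∀ j ≤ i, e j ∈ Ω i := by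
    intro i hi j
    induction j with
    | zero => intro _; rw [he0]; exact one_mem _
    | succ j ih =>
      intro hj
      apply as_mem_ac p (hΩ i hi)
      rw [he]
      exact mul_mem (ih (by omega)) (hbj i hi j (by omega))
  have hzmem : ∀ i < m, ∀ j, j ≠ i → ∀ z : K, z ^ p - z = b j → z ∈ Ω i := by
    intro i hi j hj z hz
    apply as_mem_ac p (hΩ i hi)
    rw [hz]
    exact hbj i hi j hj
  intro j
  induction j with
  | zero =>
    intro hm
    obtain ⟨g, hg, hgF, hgb, hgS, hgz⟩ := hcl 0 (by omega)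
    refine ⟨g, hgF, hgb, ?_, ?_, ?_⟩
    · intro i hi him z hz
      exact ALG.mem_fs.1 hg _ (hzmem 0 (by omega) i (by omega) z hz)
    · intro s hs hs0
      exact hgS s hs (by omega)
    · have h1 : e (0 + 1) ^ p - e (0 + 1) = b 0 := by rw [he, he0, one_mul]
      obtain ⟨c, hc, hc'⟩ := exists_const_sub (k := k) p (w := g (e (0 + 1))) (z := e (0 + 1))
        (v := b 0) (by rw [← map_pow, ← map_sub, h1, hgb]) h1
      refine ⟨c, ?_, hc', hc⟩
      rintro rfl
      rw [map_zero, add_zero] at hc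
      exact hgz _ h1 hc
  | succ j ih =>
    intro hm
    obtain ⟨D, hDF, hDb, hDz, hDS, η, hη0, hηp, hDe⟩ := ih (by omega)
    have hi : j + 1 < m := by omega
    obtain ⟨g, hg, hgF, hgb, hgS, hgz⟩ := hcl (j + 1) hi
    refine ⟨cm D g, cm_mem hDF hgF, fun i => cm_elem (hDb i) (hgb i), ?_, ?_, ?_⟩
    · intro i hji him z hz
      exact cm_elem (hDz i (by omega) him z hz)
        (ALG.mem_fs.1 hg _ (hzmem (j + 1) hi i (by omega) z hz))
    · intro s hs hsj
      by_cases h : idx s = j + 1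
      · exact cm_right (hgS s hs h) (hW s _ (inv_mem hDF))
      · exact cm_left (hDS s hs (by omega)) (hW s _ (inv_mem hgF))
    · obtain ⟨z, hz⟩ := exists_as (L := K) p (b (j + 1))
      have hDz' : D z = z := hDz (j + 1) (by omega) hi z hz
      obtain ⟨h, hh, hhp⟩ := exists_const_sub (k := k) p (w := g z) (z := z)
        (v := b (j + 1)) (by rw [← map_pow, ← map_sub, hz, hgb]) hz
      have hh0 : h ≠ 0 := by
        rintro rfl
        rw [map_zero, add_zero] at hh
        exact hgz z hz hh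
      set E := e (j + 1 + 1) with hE
      have hEe : E ^ p - E = e (j + 1) * b (j + 1) := he (j + 1)
      have hge : g (e (j + 1)) = e (j + 1) :=
        ALG.mem_fs.1 hg _ (hemem (j + 1) hi (j + 1) le_rfl)
      obtain ⟨c, hc, -⟩ := exists_const_sub (k := k) p (w := g E) (z := E)
        (v := e (j + 1) * b (j + 1)) (by rw [← map_pow, ← map_sub, hEe, map_mul, hgb, hge]) hEe
      have hηK : algebraMap k K η ^ p = algebraMap k K η := by rw [← map_pow, hηp]
      obtain ⟨c', hc', -⟩ := exists_const_sub (k := k) p (w := D E)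
        (z := E + algebraMap k K η * z) (v := (e (j + 1) + algebraMap k K η) * b (j + 1))
        (by rw [← map_pow, ← map_sub, hEe, map_mul, hDb, hDe])
        (by rw [add_as, mul_pow, hηK, hEe, ← mul_sub, hz]; ring)
      have h1 : g⁻¹ E = E - algebraMap k K c := by
        apply inv_apply_eq
        rw [map_sub, hc, AlgEquiv.commutes]
        ring
      have h2 : D⁻¹ E = E - algebraMap k K η * z - algebraMap k K c' := by
        apply inv_apply_eq
        rw [map_sub, map_sub, map_mul, hc', hDz', AlgEquiv.commutes, AlgEquiv.commutes]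
        ring
      refine ⟨-(η * h), neg_ne_zero.2 (mul_ne_zero hη0 hh0), ?_, ?_⟩
      · apply (algebraMap k K).injective
        have h3 := sub_as (K := K) p 0 (algebraMap k K (η * h))
        have h4 : algebraMap k K (η * h) ^ p = algebraMap k K (η * h) := by
          rw [← map_pow, mul_pow, hηp, hhp]
        rw [zero_sub, zero_pow (Fact.out : p.Prime).ne_zero, h4, sub_self, sub_self, sub_zero] at h3
        rw [map_pow, map_neg]
        exact sub_eq_zero.1 h3
      · rw [cm_apply, h1, map_sub, AlgEquiv.commutes, h2]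
        simp only [map_sub, map_add, map_mul, hc, hh, AlgEquiv.commutes, hc', hDz', map_neg]
        ring

end PX
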