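import Pool.Agent.H45.ALG.Defs

/-!
Definitions for the `p`-extensions hand-in on MP_0cd237_al.
-/

namespace PX

open IntermediateField

variable {k K : Type*} [Field k] [Field K] [Algebra k K]

/-- the `p`-closure of `F` in `K`: the least intermediate field which contains `F` and contains
every `y` with `y ^ p - y` in it -/
noncomputable def pcl (p : ℕ) (F : IntermediateField k K) : IntermediateField k K :=
  sInf {L : IntermediateField k K | F ≤ L ∧ ∀ y : K, y ^ p - y ∈ L → y ∈ L}

/-- the analogue of `M_r^s` for `p`-closures: `PM p k x r s` is `P_r^s` for `s ≥ 1` (the value at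
`s = 0` is a dummy): `P_r^1 = k(x_1, …, x_n)`, and `P_r^(s+1)` is the compositum of the
`p`-closures of all `k(t_1, …, t_r)` with `t_1, …, t_r ∈ P_r^s`. -/
noncomputable def PM (p : ℕ) (k : Type*) [Field k] {K : Type*} [Field K] [Algebra k K] {n : ℕ}
    (x : Fin n → K) (r : ℕ) : ℕ → IntermediateField k K
  | 0 => adjoin k (Set.range x)
  | 1 => adjoin k (Set.range x)
  | (s + 2) => ⨆ t : {t : Fin r → K // ∀ i, t i ∈ PM p k x r (s + 1)},
      pcl p (adjoin k (Set.range t.1))

end PX
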