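import Pool.Agent.H20.PX.Com

/-!
Sharpness: iterated brackets outside `M_r^2`; the `p`-closure of `k(x)` is not `k(x)`.
-/

set_option linter.style.haveILetI false

namespace PX

open IntermediateField

variable {k K : Type*} [Field k] [Field K] [Algebra k K]

/-- the algebraic closure of `k(x_j : j ≠ i)` -/
noncomputable def Om (k : Type*) [Field k] [Algebra k K] {n : ℕ} (x : Fin n → K) (i : Fin n) :
    IntermediateField k K :=
  ALG.ac (adjoin k (Set.range (fun j : {j : Fin n // j ≠ i} => x j)))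

variable {n : ℕ} {x : Fin n → K}

theorem ac_Om (i : Fin n) : ALG.ac (Om k x i) = Om k x i := ALG.ac_ac _

theorem x_mem_Om {i j : Fin n} (h : j ≠ i) : x j ∈ Om k x i :=
  ALG.le_ac _ (subset_adjoin k _ ⟨⟨j, h⟩, rfl⟩)

theorem x_notMem_Om (hx : IsTranscendenceBasis k x) (i : Fin n) : x i ∉ Om k x i := by
  intro h
  have h1 : ALG.ac (adjoin k (Set.range (fun j : {j : Fin n // j ≠ i} => x j))) = ⊤ := by
    rw [eq_top_iff, ← ALG.ac_top_of_basis hx]
    apply ALG.ac_le
    rw [adjoin_le_iff]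
    rintro _ ⟨j, rfl⟩
    by_cases hj : j = i
    · rw [hj]; exact h
    · exact x_mem_Om hj
  have h2 := ALG.le_card_of_ac_top hx _ h1
  have h3 : Nat.card {j : Fin n // j ≠ i} = n - 1 := by
    rw [Nat.card_eq_fintype_card, Fintype.card_subtype_compl]
    simp
  have h4 : 0 < n := i.pos
  omega

theorem Om_stable {i : Fin n} {ν : Gal(K/k)} (hν : ν ∈ (adjoin k (Set.range x)).fixingSubgroup)
    {z : K} (hz : z ∈ Om k x i) : ν z ∈ Om k x i := by
  refine ALG.ac_stable (fixingSubgroup_antitone ?_ hν) hz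
  rw [adjoin_le_iff]
  rintro _ ⟨j, rfl⟩
  exact subset_adjoin k _ ⟨_, rfl⟩

theorem F_le_Om {i : Fin n} {b : K} {ℓ : ℕ} (hb : b ^ ℓ = x i) :
    adjoin k (Set.range x) ≤ Om k x i ⊔ k⟮b⟯ := by
  rw [adjoin_le_iff]
  rintro _ ⟨j, rfl⟩
  by_cases hj : j = i
  · rw [hj, ← hb]
    exact pow_mem ((le_sup_right : k⟮b⟯ ≤ _) (mem_adjoin_simple_self k b)) _
  · exact (le_sup_left : Om k x i ≤ _) (x_mem_Om hj)

theorem Om_top (hx : IsTranscendenceBasis k x) {i : Fin n} {b : K} {ℓ : ℕ} (hb : b ^ ℓ = x i) :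
    ALG.ac (Om k x i ⊔ k⟮b⟯) = ⊤ := by
  rw [eq_top_iff, ← ALG.ac_top_of_basis hx]
  exact ALG.ac_mono (F_le_Om hb)

theorem b_notMem_Om (hx : IsTranscendenceBasis k x) {i : Fin n} {b : K} {ℓ : ℕ}
    (hb : b ^ ℓ = x i) : b ∉ Om k x i := fun h =>
  x_notMem_Om hx i (by rw [← hb]; exact pow_mem h _)

variable [IsAlgClosed k] [IsAlgClosed K] (p : ℕ) [Fact p.Prime] [CharP K p]

/-- `k(x)` is not `p`-closed -/
theorem ne_pcl (hx : IsTranscendenceBasis k x) (hn : 1 ≤ n) :
    adjoin k (Set.range x) ≠ pcl p (adjoin k (Set.range x)) := by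
  intro h
  set i : Fin n := ⟨0, hn⟩ with hi
  obtain ⟨z, hz⟩ := exists_as (L := K) p (x i)
  have hb : x i ^ 1 = x i := pow_one _
  obtain ⟨g, hg, hgb, hgz⟩ := exists_as_mover p (Om k x i) (ac_Om i) (b_notMem_Om hx hb)
    (Om_top hx hb) (θ := 1) one_ne_zero (z := z) (by rw [hz, map_one, one_mul])
  have hgF : g ∈ (adjoin k (Set.range x)).fixingSubgroup := by
    refine fixingSubgroup_antitone (F_le_Om hb) ?_
    rw [fixingSubgroup_sup, Subgroup.mem_inf]
    exact ⟨hg, ALG.mem_fs_adjoin.2 (by rintro _ rfl; exact hgb)⟩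
  have hzm : z ∈ adjoin k (Set.range x) := by
    rw [h]
    apply pcl_closed
    rw [hz]
    exact le_pcl p _ (subset_adjoin k _ ⟨i, rfl⟩)
  have h1 := ALG.mem_fs.1 hgF z hzm
  rw [hgz] at h1
  exact one_ne_zero (α := K) (by linear_combination h1)

/-- (4) -/
theorem sharp [CharP k p] {m : ℕ} {y : Fin m → K} (hmn : m ≤ n)
    (hx : IsTranscendenceBasis k x) {ℓ : ℕ} (hℓ : 2 ≤ ℓ) (hℓp : Nat.Coprime ℓ p)
    (hy : ∀ j, y j ^ ℓ = x (Fin.castLE hmn j)) {r : ℕ} (hr : r < m) :
    ∃ e ∈ pcl p (adjoin k (Set.range y)), e ∉ ALG.M k x r 2 := by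
  classical
  haveI : ExpChar k p := ExpChar.prime Fact.out
  set F := adjoin k (Set.range x) with hF
  have hm : 0 < m := by omega
  let b : ℕ → K := fun j => if h : j < m then y ⟨j, h⟩ else 1
  have hb1 : ∀ j (h : j < m), b j = y ⟨j, h⟩ := fun j h => dif_pos h
  have hb2 : ∀ j, ¬ j < m → b j = 1 := fun j h => dif_neg h
  -- the brackets
  have hex : ∀ q : K × ℕ, ∃ v : K, v ^ p - v = q.1 * b q.2 := fun q => exists_as p _
  choose f hf using hex
  let e : ℕ → K := fun j => Nat.rec 1 (fun j v => f (v, j)) j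
  have he0 : e 0 = 1 := rfl
  have he : ∀ j, e (j + 1) ^ p - e (j + 1) = e j * b j := fun j => hf (e j, j)
  refine ⟨e m, ?_, ?_⟩
  · have h1 : ∀ j ≤ m, e j ∈ pcl p (adjoin k (Set.range y)) := by
      intro j
      induction j with
      | zero => intro _; rw [he0]; exact one_mem _
      | succ j ih =>
        intro hj
        apply pcl_closed
        rw [he, hb1 j (by omega)]
        exact mul_mem (ih (by omega)) (le_pcl p _ (subset_adjoin k _ ⟨_, rfl⟩))
    exact h1 m le_rfl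
  · intro hem
    rw [ALG.M] at hem
    obtain ⟨S, hS⟩ := exists_finset_of_mem_iSup hem
    have hmov := fun t : {t : Fin r → K // ∀ i, t i ∈ ALG.M k x r (0 + 1)} =>
      exists_mover hmn hx p hℓ (fun a => Nat.Coprime.pow_right a hℓp) hy hr t.1 t.2
    choose idx ν hνF hνW hνy using hmov
    let Ω : ℕ → IntermediateField k K := fun i => if h : i < m then
      Om k x (Fin.castLE hmn ⟨i, h⟩) else ⊥
    have hΩe : ∀ i (h : i < m), Ω i = Om k x (Fin.castLE hmn ⟨i, h⟩) := fun i h => dif_pos h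
    obtain ⟨D, hDF, -, -, hDS, η, hη0, -, hDe⟩ := exists_comm p F (m := m) (ℓ := ℓ) (by omega) b Ω
      (fun i hi => by rw [hΩe i hi]; exact ac_Om _)
      (fun i hi => by rw [hΩe i hi, hb1 i hi]; exact b_notMem_Om hx (hy _))
      (fun i hi j hji => by
        rw [hΩe i hi]
        by_cases hj : j < m
        · rw [hb1 j hj, ← ac_Om]
          apply ALG.root_mem_ac (q := ℓ) (by omega)
          rw [hy]
          apply x_mem_Om
          intro h
          apply hji
          have := congrArg Fin.val h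
          simpa using this
        · rw [hb2 j hj]; exact one_mem _)
      (fun i hi => by rw [hΩe i hi, hb1 i hi]; exact Om_top hx (hy _))
      (fun i hi => by rw [hb1 i hi, hy]; exact subset_adjoin k _ ⟨_, rfl⟩)
      (fun i hi => by rw [hΩe i hi, hb1 i hi]; exact F_le_Om (hy _))
      (fun i hi ν hν z hz => by
        rw [hΩe i hi] at hz ⊢
        exact Om_stable hν hz)
      (fun t : {t : Fin r → K // ∀ i, t i ∈ ALG.M k x r (0 + 1)} => ALG.bracket (k := k) t.1)
      (fun t ν hν z hz => ALG.bracket_stable t.2 hν hz) S (fun t => ((idx t : Fin m) : ℕ))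
      (fun t _ => ⟨ν t, hνF t, hνW t, by
        rw [hb1 _ (idx t).2]
        exact hνy t⟩) e he0 he (m - 1) (by omega)
    have hm1 : m - 1 + 1 = m := by omega
    rw [hm1] at hDe
    have h1 : D ∈ (⨆ t ∈ S, ALG.bracket (k := k) t.1).fixingSubgroup :=
      ALG.fs_iSup_aux S (fun t : {t : Fin r → K // ∀ i, t i ∈ ALG.M k x r (0 + 1)} =>
        ALG.bracket (k := k) t.1) (fun t ht => hDS t ht (by have := (idx t).2; omega))
    have h2 := ALG.mem_fs.1 h1 _ hS
    rw [hDe] at h2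
    apply hη0
    apply (algebraMap k K).injective
    rw [map_zero]
    linear_combination h2

/-- the element of (4) lies in `M_1^3` -/
theorem pcl_y_le_M [CharP k p] {m : ℕ} {y : Fin m → K} (hmn : m ≤ n) {ℓ : ℕ} (hℓ : 1 ≤ ℓ)
    (hy : ∀ j, y j ^ ℓ = x (Fin.castLE hmn j)) :
    pcl p (adjoin k (Set.range y)) ≤ ALG.M k x 1 3 := by
  refine (pcl_mono ?_).trans (pcl_M_le p x (r := 1) le_rfl 2 (by norm_num))
  rw [adjoin_le_iff]
  rintro _ ⟨j, rfl⟩
  exact ALG.y_mem_M hmn 1 le_rfl hℓ hy j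

end PX
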