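import Pool.Agent.H20.PX.Sum

set_option autoImplicit false

/-!
The `p`-closure contains every finite Galois extension of `p`-power degree.
-/

namespace PX

open IntermediateField

section AS

variable {F M : Type*} [Field F] [Field M] [Algebra F M] [FiniteDimensional F M] [IsGalois F M]

/-- A Galois extension of degree `p` in characteristic `p` contains a root outside `F` of
`X ^ p - X - a` with `a ∈ F`. -/
theorem exists_as_of_finrank_eq (p : ℕ) [Fact p.Prime] [CharP M p]
    (h : Module.finrank F M = p) :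
    ∃ y : M, (∃ a : F, algebraMap F M a = y ^ p - y) ∧ ¬ ∃ a : F, algebraMap F M a = y := by
  classical
  have hp : p.Prime := Fact.out
  have hcard : Nat.card (M ≃ₐ[F] M) = p := by rw [IsGalois.card_aut_eq_finrank, h]
  have : Nontrivial (M ≃ₐ[F] M) := by
    rw [← Finite.one_lt_card_iff_nontrivial, hcard]
    exact hp.one_lt
  obtain ⟨σ, hσ⟩ := exists_ne (1 : M ≃ₐ[F] M)
  have hz : Subgroup.zpowers σ = ⊤ := zpowers_eq_top_of_prime_card hcard hσ
  have hz' : ∀ x : M ≃ₐ[F] M, x ∈ Subgroup.zpowers σ := fun x => by rw [hz]; trivial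
  have hord : orderOf σ = p := by
    rw [← hcard]
    exact orderOf_eq_card_of_forall_mem_zpowers hz'
  have hfix : ∀ x : M, σ x = x → ∃ a : F, algebraMap F M a = x := by
    intro x hx
    have h1 : ∀ f : M ≃ₐ[F] M, f x = x := by
      intro f
      obtain ⟨n, rfl⟩ := Subgroup.mem_zpowers_iff.1 (hz' f)
      have h2 : σ ∈ MulAction.stabilizer (M ≃ₐ[F] M) x := hx
      exact (Subgroup.zpow_mem _ h2 n : _)
    exact IntermediateField.mem_bot.1 ((IsGalois.mem_bot_iff_fixed x).2 h1)
  obtain ⟨a, ha⟩ := Algebra.trace_surjective F M 1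
  have hsum : ∑ i ∈ Finset.range p, (σ ^ i) a = 1 := by
    have h1 := trace_eq_sum_automorphisms (K := F) (L := M) a
    rw [ha, map_one] at h1
    rw [h1, ← IsCyclic.image_range_card hz', hcard, Finset.sum_image]
    intro i hi j hj hij
    apply pow_injOn_Iio_orderOf _ _ hij
    · rw [hord]; simpa using hi
    · rw [hord]; simpa using hj
  have hsum' : ∑ i ∈ Finset.range p, (σ ^ (i + 1)) a = 1 := by
    have h1 := congrArg σ hsum
    rw [map_one, map_sum] at h1
    rw [← h1]
    refine Finset.sum_congr rfl (fun i _ => ?_)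
    rw [pow_succ']
    rfl
  set y : M := ∑ i ∈ Finset.range p, (i : M) * (σ ^ i) a with hy
  have hy' : ∑ i ∈ Finset.range p, ((i + 1 : ℕ) : M) * (σ ^ (i + 1)) a = y := by
    have h1 := Finset.sum_range_succ' (fun i : ℕ => (i : M) * (σ ^ i) a) p
    rw [Finset.sum_range_succ] at h1
    simp only [Nat.cast_zero, zero_mul, add_zero, CharP.cast_eq_zero] at h1
    exact h1.symm
  have hσy : σ y = y - 1 := by
    have h1 : σ y = ∑ i ∈ Finset.range p, (i : M) * (σ ^ (i + 1)) a := by
      rw [hy, map_sum]
      refine Finset.sum_congr rfl (fun i _ => ?_)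
      rw [map_mul, map_natCast, pow_succ']
      rfl
    rw [h1]
    conv_rhs => rw [← hy', ← hsum', ← Finset.sum_sub_distrib]
    refine Finset.sum_congr rfl (fun i _ => ?_)
    push_cast
    ring
  refine ⟨y, ?_, ?_⟩
  · apply hfix
    rw [map_sub, map_pow, hσy, sub_pow_char, one_pow]
    ring
  · rintro ⟨b, hb⟩
    have h1 : σ y = y := by rw [← hb]; exact σ.commutes b
    rw [hσy] at h1
    have h2 : (1 : M) = 0 := by linear_combination -h1
    exact one_ne_zero h2

/-- The same for the degree `p ^ (s + 1)`. -/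
theorem exists_as_of_finrank_eq_pow (p : ℕ) [Fact p.Prime] [CharP M p] (s : ℕ)
    (h : Module.finrank F M = p ^ (s + 1)) :
    ∃ y : M, (∃ a : F, algebraMap F M a = y ^ p - y) ∧ ¬ ∃ a : F, algebraMap F M a = y := by
  have hp : p.Prime := Fact.out
  have hcard : Nat.card (M ≃ₐ[F] M) = p ^ (s + 1) := by rw [IsGalois.card_aut_eq_finrank, h]
  obtain ⟨H, hH⟩ := Sylow.exists_subgroup_card_pow_prime (G := M ≃ₐ[F] M) p (n := s)
    (by rw [hcard]; exact pow_dvd_pow _ (Nat.le_succ s))
  have hidx : H.index = p := by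
    have h1 := H.card_mul_index
    rw [hH, hcard, pow_succ] at h1
    exact Nat.eq_of_mul_eq_mul_left (pow_pos hp.pos s) h1
  have : H.Normal := Subgroup.normal_of_index_eq_minFac_card
    (by rw [hidx, hcard, hp.pow_minFac (Nat.succ_ne_zero s)])
  have hfr : Module.finrank F (fixedField H) = p := by
    have h1 := Module.finrank_mul_finrank F (fixedField H) M
    rw [finrank_fixedField_eq_card, hH, h, pow_succ, mul_comm] at h1
    exact Nat.eq_of_mul_eq_mul_left (pow_pos hp.pos s) h1
  have : CharP (fixedField H) p :=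
    (RingHom.charP_iff (algebraMap (fixedField H) M) (algebraMap (fixedField H) M).injective p).2
      inferInstance
  obtain ⟨y, ⟨a, ha⟩, hy⟩ := exists_as_of_finrank_eq (F := F) (M := fixedField H) p hfr
  refine ⟨y, ⟨a, ?_⟩, ?_⟩
  · have h1 := congrArg (algebraMap (fixedField H) M) ha
    rw [map_sub, map_pow, ← IsScalarTower.algebraMap_apply] at h1
    exact h1
  · rintro ⟨b, hb⟩
    apply hy
    refine ⟨b, ?_⟩
    apply (algebraMap (fixedField H) M).injective
    rw [← IsScalarTower.algebraMap_apply]
    exact hb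

/-- A field closed under Artin-Schreier roots contains every finite Galois extension of
`p`-power degree of a subfield. -/
theorem le_of_as_closed {F K : Type*} [Field F] [Field K] [Algebra F K] (p : ℕ) [Fact p.Prime]
    [CharP K p] (L : IntermediateField F K) (hL : ∀ y : K, y ^ p - y ∈ L → y ∈ L)
    (E : IntermediateField F K) [FiniteDimensional F E] [IsGalois F E] {s : ℕ}
    (hs : Module.finrank F E = p ^ s) : E ≤ L := by
  have hp : p.Prime := Fact.out
  let E0 : IntermediateField F E := L.comap E.val
  have h1 : Module.finrank E0 E ∣ p ^ s := by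
    rw [← hs]
    exact Dvd.intro_left _ (Module.finrank_mul_finrank F E0 E)
  have : CharP E p :=
    (RingHom.charP_iff (algebraMap E K) (algebraMap E K).injective p).2 inferInstance
  obtain ⟨m, _, hm⟩ := (Nat.dvd_prime_pow hp).1 h1
  cases m with
  | zero =>
    rw [pow_zero] at hm
    have h2 : E0 = ⊤ := IntermediateField.finrank_eq_one_iff_eq_top.1 hm
    intro x hx
    have h3 : (⟨x, hx⟩ : E) ∈ E0 := by rw [h2]; trivial
    exact h3
  | succ m =>
    exfalso
    obtain ⟨y, ⟨a, ha⟩, hy⟩ := exists_as_of_finrank_eq_pow (F := E0) (M := E) p m hm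
    have h4 : y ∈ E0 := by
      change (y : K) ∈ L
      apply hL
      have h5 : ((a : E) : K) ∈ L := a.2
      have h6 : ((a : E) : K) = (y : K) ^ p - y := congrArg (algebraMap E K) ha
      rwa [← h6]
    exact hy ⟨⟨y, h4⟩, rfl⟩

end AS

/-- The `p`-closure contains every finite Galois extension of `p`-power degree. -/
theorem mem_pcl_of_galois (p : ℕ) [Fact p.Prime] {k K : Type*} [Field k] [Field K] [Algebra k K]
    [CharP K p] (F : IntermediateField k K) (E : IntermediateField F K) [FiniteDimensional F E]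
    [IsGalois F E] {s : ℕ} (hs : Module.finrank F E = p ^ s) {z : K} (hz : z ∈ E) :
    z ∈ pcl p F := by
  rw [mem_pcl]
  intro L hFL hL
  exact le_of_as_closed p (extendScalars hFL) (fun y hy => hL y hy) E hs hz

end PX
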