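import Pool.Agent.H20.PX.Gal1

set_option autoImplicit false

/-!
The `p`-closure is the union of the finite Galois extensions of `p`-power degree.
-/

namespace PX

open IntermediateField Polynomial

/-- `σ ^ n` is trivial on a Galois subextension of degree `n` -/
theorem pow_fix {F E M : Type*} [Field F] [Field E] [Field M] [Algebra F E] [Algebra F M]
    (ι : E →ₐ[F] M) [FiniteDimensional F E] [IsGalois F E] {n : ℕ} (hn : Module.finrank F E = n)
    (σ : M ≃ₐ[F] M) (x : E) : (σ ^ n) (ι x) = ι x := by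
  let _ : Algebra E M := ι.toRingHom.toAlgebra
  have : IsScalarTower F E M := IsScalarTower.of_algebraMap_eq (fun a => (ι.commutes a).symm)
  have h1 : (AlgEquiv.restrictNormalHom E σ) ^ n = 1 := by
    rw [← hn, ← IsGalois.card_aut_eq_finrank]
    exact pow_card_eq_one'
  have h2 := AlgEquiv.restrictNormal_commutes (σ ^ n) E x
  have h3 : (σ ^ n).restrictNormal E = 1 := by
    have h4 := map_pow (AlgEquiv.restrictNormalHom E) σ n
    rw [h1] at h4
    exact h4
  rw [h3] at h2
  exact h2.symm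

variable {F K : Type*} [Field F] [Field K] [Algebra F K]

/-- an automorphism which is trivial on a generating set is trivial -/
theorem eq_one_of_fix (M : IntermediateField F K) (S : Set K) (hS : M = adjoin F S)
    (σ : M ≃ₐ[F] M) (h : ∀ x (hx : x ∈ M), x ∈ S → σ ⟨x, hx⟩ = ⟨x, hx⟩) : σ = 1 := by
  have h1 : (σ : M →ₐ[F] M) = ((1 : M ≃ₐ[F] M) : M →ₐ[F] M) :=
    algHom_ext_of_eq_adjoin F hS (fun x hx => h x _ hx)
  ext x
  exact congrArg Subtype.val (congrArg (fun f : M →ₐ[F] M => f x) h1)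

/-- finite Galois of `p`-power degree -/
def GE (p : ℕ) (E : IntermediateField F K) : Prop :=
  FiniteDimensional F E ∧ IsGalois F E ∧ ∃ s, Module.finrank F E = p ^ s

theorem GE_of_pow (p : ℕ) [Fact p.Prime] (M : IntermediateField F K) [FiniteDimensional F M]
    [IsGalois F M] (n : ℕ) (h : ∀ σ : M ≃ₐ[F] M, σ ^ p ^ n = 1) : GE p M := by
  refine ⟨inferInstance, inferInstance, ?_⟩
  have h1 : IsPGroup p (M ≃ₐ[F] M) := fun σ => ⟨n, h σ⟩
  obtain ⟨s, hs⟩ := IsPGroup.iff_card.1 h1
  exact ⟨s, by rw [← IsGalois.card_aut_eq_finrank, hs]⟩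

theorem GE_bot (p : ℕ) : GE p (⊥ : IntermediateField F K) :=
  ⟨inferInstance, IsGalois.of_algEquiv (botEquiv F K).symm, 0, by
    rw [pow_zero]; exact IntermediateField.finrank_bot⟩

theorem GE_sup (p : ℕ) [Fact p.Prime] {E₁ E₂ : IntermediateField F K} (h₁ : GE p E₁)
    (h₂ : GE p E₂) : GE p (E₁ ⊔ E₂) := by
  obtain ⟨i₁, j₁, s₁, e₁⟩ := h₁
  obtain ⟨i₂, j₂, s₂, e₂⟩ := h₂
  have : FiniteDimensional F (E₁ ⊔ E₂ : IntermediateField F K) := E₁.finiteDimensional_sup E₂
  have : IsGalois F (E₁ ⊔ E₂ : IntermediateField F K) := { }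
  refine GE_of_pow p _ (s₁ + s₂) (fun σ => ?_)
  refine eq_one_of_fix _ _ (sup_def E₁ E₂) _ ?_
  rintro x hx (h | h)
  · have h3 := pow_fix (inclusion (le_sup_left : E₁ ≤ E₁ ⊔ E₂)) e₁ (σ ^ p ^ s₂) ⟨x, h⟩
    rw [← pow_mul, mul_comm, ← pow_add] at h3
    exact h3
  · have h3 := pow_fix (inclusion (le_sup_right : E₂ ≤ E₁ ⊔ E₂)) e₂ (σ ^ p ^ s₁) ⟨x, h⟩
    rw [← pow_mul, ← pow_add] at h3
    exact h3

theorem AS_sep (p : ℕ) [CharP F p] (f : F[X]) (hf : f.Separable) :
    (f.comp (X ^ p - X)).Separable := by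
  have h1 : IsCoprime (f.comp (X ^ p - X)) (f.derivative.comp (X ^ p - X)) :=
    IsCoprime.map hf (compRingHom (X ^ p - X))
  have h2 : (X ^ p - X : F[X]).derivative = -1 := by
    rw [derivative_sub, derivative_X_pow, derivative_X]
    simp
  have h3 : (f.comp (X ^ p - X)).derivative = -(f.derivative.comp (X ^ p - X)) := by
    rw [derivative_comp, h2]
    ring
  rw [Polynomial.Separable, h3]
  exact h1.neg_right

/-- an automorphism which fixes `r ^ p - r` moves `r` by an element of the prime field -/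
theorem pow_p_fix {M : Type*} [Field M] (p : ℕ) [Fact p.Prime] [CharP M p] [Algebra F M]
    (τ : M ≃ₐ[F] M) (r : M) (h : τ (r ^ p - r) = r ^ p - r) : (τ ^ p) r = r := by
  set d : M := τ r - r with hd
  have h1 : d ^ p = d := by
    rw [map_sub, map_pow] at h
    rw [hd, sub_pow_char]
    linear_combination h
  have h2 : τ d = d := by
    have h3 : d ∈ (⊥ : Subfield M) := (Subfield.mem_bot_iff_pow_eq_self M p).2 h1
    have h4 : (⊥ : Subfield M) ≤ RingHom.eqLocusField (τ : M →+* M) (RingHom.id M) := bot_le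
    exact h4 h3
  have h5 : ∀ j : ℕ, (τ ^ j) r = r + j * d := by
    intro j
    induction j with
    | zero => simp
    | succ j ih =>
      rw [pow_succ', AlgEquiv.mul_apply, ih, map_add, map_mul, map_natCast, h2]
      push_cast
      have h6 : τ r = r + d := by rw [hd]; ring
      rw [h6]
      ring
  rw [h5 p, CharP.cast_eq_zero]
  ring

theorem GE_as (p : ℕ) [Fact p.Prime] [CharP K p] [IsAlgClosed K] {E : IntermediateField F K}
    (hE : GE p E) (y : K) (hy : y ^ p - y ∈ E) : ∃ E' : IntermediateField F K, GE p E' ∧ y ∈ E' := by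
  obtain ⟨i, j, s, e⟩ := hE
  have : CharP F p :=
    (RingHom.charP_iff (algebraMap F K) (algebraMap F K).injective p).2 inferInstance
  set a : E := ⟨y ^ p - y, hy⟩ with ha
  set f : F[X] := minpoly F a with hf
  have hfs : f.Separable := (Algebra.IsSeparable.isSeparable F a : _)
  set g : F[X] := f.comp (X ^ p - X) with hg
  have hgs : g.Separable := AS_sep p f hfs
  have hgsp : (g.map (algebraMap F K)).Splits := IsAlgClosed.splits _
  have : IsSplittingField F (adjoin F (g.rootSet K)) g := adjoin_rootSet_isSplittingField hgsp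
  have : FiniteDimensional F (adjoin F (g.rootSet K)) :=
    IsSplittingField.finiteDimensional (adjoin F (g.rootSet K)) g
  have : IsGalois F (adjoin F (g.rootSet K)) := IsGalois.of_separable_splitting_field hgs
  have : FiniteDimensional F (E ⊔ adjoin F (g.rootSet K) : IntermediateField F K) :=
    E.finiteDimensional_sup _
  have : IsGalois F (E ⊔ adjoin F (g.rootSet K) : IntermediateField F K) := { }
  have hroot : ∀ r ∈ g.rootSet K, r ^ p - r ∈ E := by
    intro r hr
    have h1 : (f.map (algebraMap F E)).Splits := Normal.splits inferInstance a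
    have h2 : (f.map (algebraMap F K)).Splits := IsAlgClosed.splits _
    refine (splits_iff_mem h2).1 h1 _ ?_
    rw [mem_rootSet] at hr ⊢
    refine ⟨hfs.ne_zero, ?_⟩
    have h3 := hr.2
    rw [hg, aeval_comp] at h3
    simpa using h3
  refine ⟨E ⊔ adjoin F (g.rootSet K), ?_, ?_⟩
  · have : CharP (E ⊔ adjoin F (g.rootSet K) : IntermediateField F K) p :=
      (RingHom.charP_iff (algebraMap _ K)
        (algebraMap (E ⊔ adjoin F (g.rootSet K) : IntermediateField F K) K).injective p).2
        inferInstance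
    have hM : E ⊔ adjoin F (g.rootSet K) = adjoin F ((E : Set K) ∪ g.rootSet K) := by
      rw [adjoin_union, adjoin_self]
    refine GE_of_pow p _ (s + 1) (fun σ => ?_)
    refine eq_one_of_fix _ _ hM _ ?_
    have hE : ∀ (x : K) (hx : x ∈ E), (σ ^ p ^ s) ⟨x, le_sup_left (a := E) hx⟩ =
        ⟨x, le_sup_left (a := E) hx⟩ := fun x hx =>
      pow_fix (inclusion (le_sup_left : E ≤ E ⊔ adjoin F (g.rootSet K))) e σ ⟨x, hx⟩
    rw [pow_succ, pow_mul]
    rintro x hx (h | h)
    · have h1 := hE x h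
      have h2 : ∀ j : ℕ, ((σ ^ p ^ s) ^ j) ⟨x, hx⟩ = ⟨x, hx⟩ := by
        intro j
        induction j with
        | zero => rfl
        | succ j ih => rw [pow_succ', AlgEquiv.mul_apply, ih, h1]
      exact h2 p
    · apply pow_p_fix
      have h1 := hE _ (hroot x h)
      exact h1
  · refine le_sup_right (a := E) (subset_adjoin F _ ?_)
    rw [mem_rootSet]
    refine ⟨hgs.ne_zero, ?_⟩
    rw [hg, aeval_comp]
    have h1 : aeval ((a : E) : K) f = 0 := by
      have h2 := minpoly.aeval F a
      rw [← hf] at h2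
      have h3 := congrArg (algebraMap E K) h2
      rw [← aeval_algebraMap_apply, map_zero] at h3
      exact h3
    simpa [ha] using h1

/-- The `p`-closure is the union of the finite Galois extensions of `p`-power degree. -/
theorem mem_pcl_iff_galois (p : ℕ) [Fact p.Prime] {k K : Type*} [Field k] [Field K] [Algebra k K]
    [CharP K p] [IsAlgClosed K] (F : IntermediateField k K) (z : K) :
    z ∈ pcl p F ↔ ∃ E : IntermediateField F K, FiniteDimensional F E ∧ IsGalois F E ∧
      (∃ s, Module.finrank F E = p ^ s) ∧ z ∈ E := by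
  constructor
  · intro hz
    let U : IntermediateField F K :=
      { carrier := {z | ∃ E : IntermediateField F K, GE p E ∧ z ∈ E}
        mul_mem' := by
          rintro a b ⟨E₁, h₁, m₁⟩ ⟨E₂, h₂, m₂⟩
          exact ⟨E₁ ⊔ E₂, GE_sup p h₁ h₂, mul_mem (le_sup_left (a := E₁) m₁)
            (le_sup_right (b := E₂) m₂)⟩
        add_mem' := by
          rintro a b ⟨E₁, h₁, m₁⟩ ⟨E₂, h₂, m₂⟩
          exact ⟨E₁ ⊔ E₂, GE_sup p h₁ h₂, add_mem (le_sup_left (a := E₁) m₁)
            (le_sup_right (b := E₂) m₂)⟩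
        algebraMap_mem' := fun c => ⟨⊥, GE_bot p, IntermediateField.algebraMap_mem _ c⟩
        inv_mem' := by
          rintro a ⟨E, h, m⟩
          exact ⟨E, h, inv_mem m⟩ }
    have h1 : pcl p F ≤ U.restrictScalars k := by
      refine pcl_le ?_ ?_
      · intro x hx
        exact U.algebraMap_mem ⟨x, hx⟩
      · rintro y ⟨E, h, m⟩
        exact GE_as p h y m
    obtain ⟨E, ⟨h2, h3, h4⟩, h5⟩ := h1 hz
    exact ⟨E, h2, h3, h4, h5⟩
  · rintro ⟨E, h2, h3, ⟨s, h4⟩, h5⟩
    exact mem_pcl_of_galois p F E h4 h5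

end PX
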