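import Pool.Agent.H20.PX.Defs
import Pool.Agent.H45.ALG.Fix

/-!
The Frobenius trick: one element carries several Artin-Schreier classes.
-/

namespace PX

open IntermediateField

/-- Artin-Schreier equations are solvable in an algebraically closed field -/
theorem exists_as {L : Type*} [Field L] [IsAlgClosed L] (p : ℕ) [Fact p.Prime] (v : L) :
    ∃ y : L, y ^ p - y = v := by
  have hp := (Fact.out : p.Prime).two_le
  have h1 : (Polynomial.X + Polynomial.C v : Polynomial L).degree <
      (Polynomial.X ^ p : Polynomial L).degree := by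
    rw [Polynomial.degree_X_pow, Polynomial.degree_X_add_C]
    exact_mod_cast hp
  obtain ⟨y, hy⟩ := IsAlgClosed.exists_root
    (Polynomial.X ^ p - (Polynomial.X + Polynomial.C v)) (by
    rw [Polynomial.degree_sub_eq_left_of_degree_lt h1, Polynomial.degree_X_pow]
    exact_mod_cast (by omega : p ≠ 0))
  refine ⟨y, ?_⟩
  have h2 : Polynomial.eval y (Polynomial.X ^ p - (Polynomial.X + Polynomial.C v)) = 0 := hy
  simp only [Polynomial.eval_sub, Polynomial.eval_add, Polynomial.eval_pow, Polynomial.eval_X,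
    Polynomial.eval_C] at h2
  linear_combination h2

variable {k K : Type*} [Field k] [Field K] [Algebra k K]

/-- `g` is realised by one element -/
def Good (p : ℕ) (F : IntermediateField k K) (g : k → k) : Prop :=
  ∀ a ∈ F, ∃ t ∈ F, ∀ c : k, ∃ b ∈ F,
    algebraMap k K c * t - algebraMap k K (g c) * a = b ^ p - b

variable (p : ℕ) [Fact p.Prime] [CharP k p] [CharP K p]

theorem sub_as (b b' : K) : (b - b') ^ p - (b - b') = (b ^ p - b) - (b' ^ p - b') := by
  rw [sub_pow_char]; ring

theorem add_as (b b' : K) : (b + b') ^ p - (b + b') = (b ^ p - b) + (b' ^ p - b') := by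
  rw [add_pow_char]; ring

variable [IsAlgClosed k]

/-- the `p`-th root in `k` -/
theorem exists_rt : ∃ f : k → k, ∀ c, f c ^ p = c := by
  have h : ∀ c : k, ∃ d, d ^ p = c := fun c =>
    IsAlgClosed.exists_pow_nat_eq c (Fact.out : p.Prime).pos
  choose f hf using h
  exact ⟨f, hf⟩

/-- KEY LEMMA. Given `a_1, …, a_w ∈ F` there are `T ∈ F` and `c_1, …, c_w ∈ k` such that
`c_j T - a_j` is of the form `b ^ p - b`, `b ∈ F`, for all `j`. -/
theorem exists_carrier (F : IntermediateField k K) (w : ℕ) :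
    ∃ g : k → k, Good p F g ∧ Function.Surjective g ∧ ∃ c : Fin w → k, (∀ j, g (c j) = 0) ∧
      ∀ a : Fin w → K, (∀ j, a j ∈ F) → ∃ T ∈ F, ∀ j, ∃ b ∈ F,
        algebraMap k K (c j) * T - a j = b ^ p - b := by
  have hp := (Fact.out : p.Prime).pos
  obtain ⟨f, hf⟩ := exists_rt (k := k) p
  induction w with
  | zero =>
    refine ⟨id, ?_, Function.surjective_id, Fin.elim0, fun j => j.elim0, fun a _ =>
      ⟨0, zero_mem F, fun j => j.elim0⟩⟩
    intro a ha
    refine ⟨a, ha, fun c => ⟨0, zero_mem F, ?_⟩⟩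
    rw [zero_pow hp.ne']; simp
  | succ w ih =>
    obtain ⟨g, hg, hs, c, hc, hT⟩ := ih
    obtain ⟨c', hc'⟩ := hs 1
    refine ⟨fun x => f (g x) - g x, ?_, ?_, Fin.snoc c c', ?_, ?_⟩
    · intro a ha
      obtain ⟨t₁, ht₁, h₁⟩ := hg (a ^ p) (pow_mem ha p)
      obtain ⟨t₂, ht₂, h₂⟩ := hg a ha
      refine ⟨t₁ - t₂, sub_mem ht₁ ht₂, fun x => ?_⟩
      obtain ⟨b₁, hb₁, e₁⟩ := h₁ x
      obtain ⟨b₂, hb₂, e₂⟩ := h₂ x
      refine ⟨b₁ + algebraMap k K (f (g x)) * a - b₂, sub_mem (add_mem hb₁
        (mul_mem (F.algebraMap_mem _) ha)) hb₂, ?_⟩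
      rw [sub_as, add_as, ← e₁, ← e₂, mul_pow, ← map_pow, hf, map_sub]
      ring
    · intro v
      obtain ⟨y, hy⟩ := exists_as (L := k) p (-v)
      obtain ⟨x, hx⟩ := hs (y ^ p)
      refine ⟨x, ?_⟩
      have h1 : f (g x) = y := by
        apply frobenius_inj k p
        rw [frobenius_def, frobenius_def, hf, hx]
      show f (g x) - g x = v
      rw [h1, hx]
      linear_combination -hy
    · intro j
      have hf0 : f 0 = 0 := by
        apply frobenius_inj k p
        rw [frobenius_def, frobenius_def, hf, zero_pow hp.ne']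
      have hf1 : f 1 = 1 := by
        apply frobenius_inj k p
        rw [frobenius_def, frobenius_def, hf, one_pow]
      refine Fin.lastCases ?_ (fun j => ?_) j
      · simp [hc', hf1]
      · simp [hc, hf0]
    · intro a ha
      obtain ⟨T, hTF, hT⟩ := hT (fun j => a j.castSucc) (fun j => ha _)
      obtain ⟨t, ht, h⟩ := hg (a (Fin.last w) - algebraMap k K c' * T)
        (sub_mem (ha _) (mul_mem (F.algebraMap_mem _) hTF))
      refine ⟨T + t, add_mem hTF ht, fun j => ?_⟩
      refine Fin.lastCases ?_ (fun j => ?_) j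
      · obtain ⟨b, hb, e⟩ := h c'
        refine ⟨b, hb, ?_⟩
        rw [Fin.snoc_last, ← e, hc', map_one]
        ring
      · obtain ⟨b, hb, e⟩ := h (c j)
        obtain ⟨b', hb', e'⟩ := hT j
        refine ⟨b + b', add_mem hb hb', ?_⟩
        rw [Fin.snoc_castSucc, add_as, ← e, ← e', hc, map_zero]
        ring

end PX
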