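import Pool.Agent.H20.PX.Mod
import Pool.Agent.H45.ALG.Main

/-!
Automorphisms which move Artin-Schreier elements; iterated commutators.
-/

set_option linter.style.haveILetI false

namespace PX

open IntermediateField

variable {k K : Type*} [Field k] [Field K] [Algebra k K]

/-- some automorphism over `k(x)` and `[u]` moves some `b_j` -/
theorem exists_mover [IsAlgClosed k] [IsAlgClosed K] {m n : ℕ} {x : Fin n → K} {y : Fin m → K}
    (hmn : m ≤ n) (hx : IsTranscendenceBasis k x) (p : ℕ) [ExpChar k p] {ℓ : ℕ} (hℓ : 2 ≤ ℓ)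
    (hℓp : ∀ a, Nat.Coprime ℓ (p ^ a)) (hy : ∀ j, y j ^ ℓ = x (Fin.castLE hmn j)) {r : ℕ}
    (hr : r < m) (u : Fin r → K) (hu : ∀ i, u i ∈ adjoin k (Set.range x)) :
    ∃ (j : Fin m) (ν : Gal(K/k)), ν ∈ (adjoin k (Set.range x)).fixingSubgroup ∧
      ν ∈ (ALG.bracket (k := k) u).fixingSubgroup ∧ ν (y j) ≠ y j := by
  by_contra hcon
  push Not at hcon
  set F := adjoin k (Set.range x) with hF
  have hFac : ALG.ac F = ⊤ := ALG.ac_top_of_basis hx
  have hk := fun j => ALG.kummer p F (ALG.bracket (k := k) u) hFac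
    (fun σ hσ z hz => ALG.bracket_stable hu hσ hz) (ALG.y_ne_zero hmn hx (by omega) hy j)
    (ℓ := ℓ) (by omega) (by rw [hy]; exact subset_adjoin k _ ⟨_, rfl⟩)
    (fun σ hσF hσu => hcon j σ hσF hσu)
  choose a g h hgF hgu hhF hg0 hh0 heq using hk
  have hind := ALG.indep_of_kummer hx.1 (Fin.castLE hmn) (Fin.castLE_injective hmn) ℓ hℓ
    (fun j => p ^ a j) (fun j => hℓp _) g h hgF hhF hg0 hh0 (fun j => by rw [← hy]; exact heq j)
  have h1 := ALG.card_le_of_indep hind u hgu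
  rw [Nat.card_eq_fintype_card, Fintype.card_fin] at h1
  omega

/-- an automorphism over `Ω(b)` which moves `z`, `z ^ p - z = θ b` -/
theorem exists_as_mover [IsAlgClosed K] (p : ℕ) [Fact p.Prime] [CharP K p]
    (Ω : IntermediateField k K) (hΩ : ALG.ac Ω = Ω) {b : K} (hb : b ∉ Ω)
    (htop : ALG.ac (Ω ⊔ k⟮b⟯) = ⊤) {θ : k} (hθ : θ ≠ 0) {z : K}
    (hz : z ^ p - z = algebraMap k K θ * b) :
    ∃ g ∈ Ω.fixingSubgroup, g b = b ∧ g z = z + 1 := by
  have hθ' : algebraMap k K θ ≠ 0 := (map_ne_zero _).2 hθ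
  have key : ∀ w : K, w ^ p - w = algebraMap k K θ * b →
      w ∉ ALG.ac Ω ∧ ALG.ac (Ω ⊔ k⟮w⟯) = ⊤ := by
    intro w hw
    have hbw : b = algebraMap k K θ⁻¹ * (w ^ p - w) := by
      rw [hw, map_inv₀, inv_mul_cancel_left₀ hθ']
    constructor
    · intro h
      rw [hΩ] at h
      apply hb
      rw [hbw]
      exact mul_mem (Ω.algebraMap_mem _) (sub_mem (pow_mem h p) h)
    · rw [eq_top_iff, ← htop]
      apply ALG.ac_mono
      refine sup_le le_sup_left ?_
      rw [adjoin_simple_le_iff, hbw]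
      have hwm : w ∈ Ω ⊔ k⟮w⟯ := (le_sup_right : k⟮w⟯ ≤ _) (mem_adjoin_simple_self k w)
      exact mul_mem (IntermediateField.algebraMap_mem _ _) (sub_mem (pow_mem hwm p) hwm)
  have hz1 : (z + 1) ^ p - (z + 1) = algebraMap k K θ * b := by
    rw [add_as, one_pow, sub_self, add_zero, hz]
  obtain ⟨h1, h2⟩ := key z hz
  obtain ⟨h3, h4⟩ := key (z + 1) hz1
  haveI := ALG.alg_of_ac h2
  haveI := ALG.alg_of_ac h4
  obtain ⟨σ, hσ⟩ := ALG.exists_map_transcendental (ALG.tr_of_notMem h1) (ALG.tr_of_notMem h3)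
  have hσ' : (σ.restrictScalars k) z = z + 1 := hσ
  refine ⟨σ.restrictScalars k, ALG.restrict_mem_fs σ, ?_, hσ'⟩
  have h5 := congrArg (σ.restrictScalars k) hz
  rw [map_sub, map_pow, hσ', hz1, map_mul, AlgEquiv.commutes] at h5
  exact (mul_left_cancel₀ hθ' h5).symm

/-- the commutator -/
def cm (D g : Gal(K/k)) : Gal(K/k) := D * g * D⁻¹ * g⁻¹

theorem cm_apply (D g : Gal(K/k)) (z : K) : cm D g z = D (g (D⁻¹ (g⁻¹ z))) := rfl

theorem inv_apply_of_fix {g : Gal(K/k)} {z : K} (h : g z = z) : g⁻¹ z = z := by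
  conv_lhs => rw [← h]
  rw [← AlgEquiv.mul_apply, inv_mul_cancel, AlgEquiv.one_apply]

theorem inv_apply_eq {g : Gal(K/k)} {z w : K} (h : g w = z) : g⁻¹ z = w := by
  rw [← h, ← AlgEquiv.mul_apply, inv_mul_cancel, AlgEquiv.one_apply]

theorem apply_inv (g : Gal(K/k)) (z : K) : g (g⁻¹ z) = z := by
  rw [← AlgEquiv.mul_apply, mul_inv_cancel, AlgEquiv.one_apply]

theorem cm_left {W : IntermediateField k K} {D g : Gal(K/k)} (hD : D ∈ W.fixingSubgroup)
    (hg : ∀ z ∈ W, g⁻¹ z ∈ W) : cm D g ∈ W.fixingSubgroup := by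
  rw [ALG.mem_fs]
  intro z hz
  rw [cm_apply, ALG.mem_fs.1 (inv_mem hD) _ (hg z hz), apply_inv]
  exact ALG.mem_fs.1 hD _ hz

theorem cm_right {W : IntermediateField k K} {D g : Gal(K/k)} (hg : g ∈ W.fixingSubgroup)
    (hD : ∀ z ∈ W, D⁻¹ z ∈ W) : cm D g ∈ W.fixingSubgroup := by
  rw [ALG.mem_fs]
  intro z hz
  rw [cm_apply, ALG.mem_fs.1 (inv_mem hg) _ hz, ALG.mem_fs.1 hg _ (hD z hz), apply_inv]

theorem cm_elem {D g : Gal(K/k)} {z : K} (hD : D z = z) (hg : g z = z) : cm D g z = z := by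
  rw [cm_apply, inv_apply_of_fix hg, inv_apply_of_fix hD, hg, hD]

theorem cm_mem {W : IntermediateField k K} {D g : Gal(K/k)} (hD : D ∈ W.fixingSubgroup)
    (hg : g ∈ W.fixingSubgroup) : cm D g ∈ W.fixingSubgroup :=
  mul_mem (mul_mem (mul_mem hD hg) (inv_mem hD)) (inv_mem hg)

/-- elements with `w ^ p = w` are constants -/
theorem exists_const [IsAlgClosed k] (p : ℕ) [Fact p.Prime] {w : K} (h : w ^ p - w = 0) :
    ∃ c : k, w = algebraMap k K c ∧ c ^ p = c := by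
  have h1 := mem_of_as_zero (k := k) p ⊥ h
  obtain ⟨c, hc⟩ := mem_bot.1 h1
  refine ⟨c, hc.symm, (algebraMap k K).injective ?_⟩
  rw [map_pow, hc]
  exact sub_eq_zero.1 h

/-- two solutions of the same equation differ by a constant -/
theorem exists_const_sub [IsAlgClosed k] (p : ℕ) [Fact p.Prime] [CharP K p] {w z v : K}
    (hw : w ^ p - w = v) (hz : z ^ p - z = v) :
    ∃ c : k, w = z + algebraMap k K c ∧ c ^ p = c := by
  obtain ⟨c, hc, hc'⟩ := exists_const (k := k) p (w := w - z) (by rw [sub_as, hw, hz, sub_self])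
  exact ⟨c, by rw [← hc]; ring, hc'⟩

/-- the class lemma -/
theorem class_lemma [IsAlgClosed k] [IsAlgClosed K] (p : ℕ) [Fact p.Prime] [CharP K p]
    (F Ω : IntermediateField k K) (hΩ : ALG.ac Ω = Ω) {b : K} (hb : b ∉ Ω)
    (htop : ALG.ac (Ω ⊔ k⟮b⟯) = ⊤) {ℓ : ℕ} (hℓ : 1 ≤ ℓ) (hbF : b ^ ℓ ∈ F)
    (hF : F ≤ Ω ⊔ k⟮b⟯) (hΩs : ∀ ν ∈ F.fixingSubgroup, ∀ z ∈ Ω, ν z ∈ Ω)
    {ι : Type*} (W : ι → IntermediateField k K)
    (hW : ∀ i, ∀ ν ∈ F.fixingSubgroup, ∀ z ∈ W i, ν z ∈ W i)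
    (S : Finset ι) (hS : ∀ i ∈ S, ∃ ν ∈ F.fixingSubgroup, ν ∈ (W i).fixingSubgroup ∧ ν b ≠ b) :
    ∀ θ : k, θ ≠ 0 → ∃ g ∈ Ω.fixingSubgroup, g b = b ∧ g ∈ F.fixingSubgroup ∧
      (∀ i ∈ S, g ∈ (W i).fixingSubgroup) ∧
      ∀ z : K, z ^ p - z = algebraMap k K θ * b → g z ≠ z := by
  classical
  have hfix : ∀ g : Gal(K/k), g ∈ Ω.fixingSubgroup → g b = b → g ∈ F.fixingSubgroup := by
    intro g hg hgb
    refine fixingSubgroup_antitone hF ?_
    rw [fixingSubgroup_sup, Subgroup.mem_inf]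
    exact ⟨hg, ALG.mem_fs_adjoin.2 (by rintro _ rfl; exact hgb)⟩
  induction S using Finset.induction_on with
  | empty =>
    intro θ hθ
    obtain ⟨z, hz⟩ := exists_as (L := K) p (algebraMap k K θ * b)
    obtain ⟨g, hg, hgb, hgz⟩ := exists_as_mover p Ω hΩ hb htop hθ hz
    refine ⟨g, hg, hgb, hfix g hg hgb, by simp, fun z' hz' h => ?_⟩
    obtain ⟨c, hc, -⟩ := exists_const_sub (k := k) p hz' hz
    rw [hc, map_add, hgz, AlgEquiv.commutes] at h
    exact one_ne_zero (α := K) (by linear_combination h)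
  | insert i S hi ih =>
    intro θ hθ
    obtain ⟨ν, hνF, hνW, hνb⟩ := hS i (Finset.mem_insert_self i S)
    obtain ⟨χ, hχ⟩ := ALG.exists_algebraMap_of_pow (k := k) (a := ν⁻¹ b) (b := b) ℓ hℓ (by
      rw [← map_pow, ALG.mem_fs.1 (inv_mem hνF) _ hbF])
    have hχ1 : χ ≠ 1 := by
      rintro rfl
      apply hνb
      rw [map_one, one_mul] at hχ
      have := apply_inv ν b
      rwa [hχ] at this
    obtain ⟨g, hgΩ, hgb, hgF, hgS, hg⟩ := ih (fun j hj => hS j (Finset.mem_insert_of_mem hj))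
      ((χ - 1) * θ) (mul_ne_zero (sub_ne_zero.2 hχ1) hθ)
    have hcΩ : cm ν g ∈ Ω.fixingSubgroup := cm_right hgΩ (hΩs _ (inv_mem hνF))
    have hcb : cm ν g b = b := by
      rw [cm_apply, inv_apply_of_fix hgb, hχ, map_mul, AlgEquiv.commutes, hgb, ← hχ, apply_inv]
    refine ⟨cm ν g, hcΩ, hcb, hfix _ hcΩ hcb, ?_, ?_⟩
    · intro j hj
      rcases Finset.mem_insert.1 hj with rfl | hj
      · exact cm_left hνW (hW _ _ (inv_mem hgF))
      · exact cm_right (hgS j hj) (hW _ _ (inv_mem hνF))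
    · intro z hz h
      set w := ν⁻¹ z with hw
      have hνw : ν w = z := apply_inv ν z
      have hwe : w ^ p - w = algebraMap k K (χ * θ) * b := by
        rw [hw, ← map_pow, ← map_sub, hz, map_mul, AlgEquiv.commutes, hχ, map_mul]
        ring
      obtain ⟨c, hc, -⟩ := exists_const_sub (k := k) p (w := g z) (z := z)
        (v := algebraMap k K θ * b) (by
          rw [← map_pow, ← map_sub, hz, map_mul, AlgEquiv.commutes, hgb]) hz
      obtain ⟨c', hc', -⟩ := exists_const_sub (k := k) p (w := g w) (z := w)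
        (v := algebraMap k K (χ * θ) * b) (by
          rw [← map_pow, ← map_sub, hwe, map_mul, AlgEquiv.commutes, hgb]) hwe
      have h1 : g⁻¹ z = z - algebraMap k K c := by
        apply inv_apply_eq
        rw [map_sub, hc, AlgEquiv.commutes]
        ring
      rw [cm_apply, h1, map_sub, AlgEquiv.commutes, ← hw, map_sub, hc', AlgEquiv.commutes,
        map_sub, map_add, AlgEquiv.commutes, AlgEquiv.commutes, hνw] at h
      have h2 : algebraMap k K c' = algebraMap k K c := by linear_combination h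
      refine hg (w - z) ?_ ?_
      · rw [sub_as, hwe, hz, map_mul, map_mul, map_sub, map_one]
        ring
      · rw [map_sub, hc, hc', h2]
        ring

end PX
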