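import Pool.Agent.H20.PX.Br
import Pool.Agent.H45.ALG.Ac

/-!
The `p`-closure is the union of the spans of the brackets; one-variable form.
-/

namespace PX

open IntermediateField

variable {k K : Type*} [Field k] [Field K] [Algebra k K]

/-- membership in the `p`-closure -/
theorem mem_pcl {p : ℕ} {F : IntermediateField k K} {z : K} :
    z ∈ pcl p F ↔ ∀ L : IntermediateField k K, F ≤ L → (∀ y : K, y ^ p - y ∈ L → y ∈ L) → z ∈ L := by
  rw [pcl, IntermediateField.mem_sInf]
  exact ⟨fun h L h1 h2 => h L ⟨h1, h2⟩, fun h L hL => h L hL.1 hL.2⟩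

theorem le_pcl (p : ℕ) (F : IntermediateField k K) : F ≤ pcl p F :=
  fun _ hz => mem_pcl.2 (fun _ h _ => h hz)

theorem pcl_closed {p : ℕ} {F : IntermediateField k K} {y : K} (h : y ^ p - y ∈ pcl p F) :
    y ∈ pcl p F := mem_pcl.2 (fun L h1 h2 => h2 y (mem_pcl.1 h L h1 h2))

theorem pcl_le {p : ℕ} {F L : IntermediateField k K} (h : F ≤ L)
    (h' : ∀ y : K, y ^ p - y ∈ L → y ∈ L) : pcl p F ≤ L := fun _ hz => mem_pcl.1 hz L h h'

theorem pcl_mono {p : ℕ} {F F' : IntermediateField k K} (h : F ≤ F') : pcl p F ≤ pcl p F' :=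
  pcl_le (h.trans (le_pcl p F')) (fun _ hy => pcl_closed hy)

theorem pcl_pcl (p : ℕ) (F : IntermediateField k K) : pcl p (pcl p F) = pcl p F :=
  le_antisymm (pcl_le le_rfl (fun _ hy => pcl_closed hy)) (le_pcl _ _)

variable (p : ℕ) [Fact p.Prime]

/-- the `p`-closure is algebraic -/
theorem pcl_le_ac (F : IntermediateField k K) : pcl p F ≤ ALG.ac F := by
  refine pcl_le (ALG.le_ac F) (fun y hy => ?_)
  have hp := (Fact.out : p.Prime).two_le
  rw [← ALG.ac_ac F, ALG.mem_ac]
  refine ⟨Polynomial.X ^ p - (Polynomial.X + Polynomial.C (⟨y ^ p - y, hy⟩ : ALG.ac F)), ?_, ?_⟩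
  · intro h
    have h1 : (Polynomial.X + Polynomial.C (⟨y ^ p - y, hy⟩ : ALG.ac F)).degree <
        (Polynomial.X ^ p : Polynomial (ALG.ac F)).degree := by
      rw [Polynomial.degree_X_pow, Polynomial.degree_X_add_C]
      exact_mod_cast hp
    have h2 := Polynomial.degree_sub_eq_left_of_degree_lt h1
    rw [h, Polynomial.degree_X_pow, Polynomial.degree_zero] at h2
    exact absurd h2 (by simp)
  · simp only [map_sub, map_add, map_pow, Polynomial.aeval_X, Polynomial.aeval_C]
    change y ^ p - (y + (y ^ p - y)) = 0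
    ring

theorem br_pcl {F : IntermediateField k K} {l : List K} (hl : ∀ a ∈ l, a ∈ F) {z : K}
    (hz : Br p l z) : z ∈ pcl p F := by
  induction hz with
  | nil => exact one_mem _
  | @cons l a y z _ hz ih =>
    refine pcl_closed ?_
    rw [hz]
    exact mul_mem (ih (fun c hc => hl c (by simp [hc]))) (le_pcl p F (hl a (by simp)))

theorem TT_pcl {F : IntermediateField k K} {n : ℕ} {z : K} (hz : z ∈ TT p F n) : z ∈ pcl p F := by
  induction hz using Submodule.span_induction with
  | mem z hz =>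
    obtain ⟨l, hl, _, hbr⟩ := hz
    exact br_pcl p hl hbr
  | zero => exact zero_mem _
  | add u v _ _ hu hv => exact add_mem hu hv
  | smul c u _ hu =>
    change (c : K) * u ∈ pcl p F
    exact mul_mem (le_pcl p F c.2) hu

variable [CharP k p] [CharP K p] [IsAlgClosed k] [IsAlgClosed K]

/-- the union of the spans, as a subalgebra -/
noncomputable def TS (F : IntermediateField k K) : Subalgebra F K where
  carrier := {z | ∃ n, z ∈ TT p F n}
  mul_mem' := by
    rintro a b ⟨m, ha⟩ ⟨n, hb⟩
    exact ⟨m + n, mul_mem_TT' p ha hb⟩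
  add_mem' := by
    rintro a b ⟨m, ha⟩ ⟨n, hb⟩
    exact ⟨max m n, add_mem (TT_mono p (le_max_left _ _) ha) (TT_mono p (le_max_right _ _) hb)⟩
  algebraMap_mem' := fun c => ⟨1, mem_TT_of_mem p c.2 Nat.one_pos⟩

omit [CharP k p] in
theorem mem_TS {F : IntermediateField k K} {z : K} : z ∈ TS p F ↔ ∃ n, z ∈ TT p F n := Iff.rfl

/-- the union of the spans, as an intermediate field -/
noncomputable def TF (F : IntermediateField k K) : IntermediateField k K :=
  (({ TS p F with
    inv_mem' := by
      intro z hz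
      have h1 : IsAlgebraic F z := by
        obtain ⟨n, hn⟩ := mem_TS p |>.1 hz
        exact ALG.mem_ac.1 (pcl_le_ac p F (TT_pcl p hn))
      exact (TS p F).inv_mem_of_algebraic (x := ⟨z, hz⟩) h1 } :
    IntermediateField F K)).restrictScalars k

omit [CharP k p] in
theorem mem_TF {F : IntermediateField k K} {z : K} : z ∈ TF p F ↔ ∃ n, z ∈ TT p F n := Iff.rfl

omit [CharP k p] in
/-- the `p`-closure is the union of the spans of the brackets -/
theorem pcl_eq_TF (F : IntermediateField k K) : pcl p F = TF p F := by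
  apply le_antisymm
  · refine pcl_le ?_ ?_
    · intro z hz
      exact (mem_TF p).2 ⟨1, mem_TT_of_mem p hz Nat.one_pos⟩
    · intro y hy
      obtain ⟨n, hn⟩ := (mem_TF p).1 hy
      exact (mem_TF p).2 ⟨n + 1, as_mem p hn 1 (one_mem F) y (mul_one _).symm⟩
  · intro z hz
    obtain ⟨n, hn⟩ := (mem_TF p).1 hz
    exact TT_pcl p hn

/-- the sum over `T ∈ F` of `F · P(k(T))` -/
noncomputable def SF (F : IntermediateField k K) : Submodule F K :=
  Submodule.span F {z | ∃ T ∈ F, z ∈ pcl p (adjoin k {T})}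

theorem TT_le_SF (F : IntermediateField k K) (n : ℕ) : TT p F n ≤ SF p F := by
  induction n with
  | zero =>
    rw [TT, Submodule.span_le]
    rintro z ⟨l, _, h, _⟩
    exact absurd h (Nat.not_lt_zero _)
  | succ n ih =>
    rw [TT, Submodule.span_le]
    rintro z ⟨l, hl, h, hz⟩
    rcases Nat.lt_succ_iff_lt_or_eq.1 h with h | h
    · exact ih (br_mem p hl hz h)
    · obtain ⟨g, _, _, c, _, hT⟩ := exists_carrier p F l.length
      obtain ⟨T, hTF, hT⟩ := hT (fun j => l.get j) (fun j => hl _ (List.get_mem l j))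
      set l' : List K := List.ofFn (fun j => algebraMap k K (c j) * T) with hl'
      have hl'F : ∀ a ∈ l', a ∈ adjoin k {T} := by
        intro a ha
        rw [hl', List.mem_ofFn] at ha
        obtain ⟨j, rfl⟩ := ha
        exact mul_mem (IntermediateField.algebraMap_mem _ _) (mem_adjoin_simple_self k T)
      have hTle : adjoin k {T} ≤ F := adjoin_simple_le_iff.2 hTF
      obtain ⟨z', hz'⟩ := exists_br (K := K) p l'
      have h1 : z' ∈ SF p F := Submodule.subset_span ⟨T, hTF, br_pcl p hl'F hz'⟩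
      have hlen : l.length = l'.length := by rw [hl', List.length_ofFn]
      have h2 : z - z' ∈ TT p F l.length := by
        refine br_sub_mem p ?_ hl (fun a ha => hTle (hl'F a ha)) hz hz'
        rw [List.forall₂_iff_get]
        refine ⟨hlen, fun i h₁ h₂ => ?_⟩
        obtain ⟨b, hb, e⟩ := hT ⟨i, h₁⟩
        refine ⟨-b, neg_mem hb, ?_⟩
        have h3 : l'.get ⟨i, h₂⟩ = algebraMap k K (c ⟨i, h₁⟩) * T := by
          simp [hl']
        have h4 : (-b) ^ p - (-b) = -(b ^ p - b) := by
          have := sub_as (K := K) p 0 b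
          rw [zero_sub, zero_pow (Fact.out : p.Prime).ne_zero] at this
          rw [this]; ring
        rw [h3, h4, ← e]
        ring
      rw [h] at h2
      have h3 := add_mem (ih h2) h1
      rwa [sub_add_cancel] at h3

/-- (1), as a span -/
theorem mem_pcl_iff_span (F : IntermediateField k K) (z : K) : z ∈ pcl p F ↔ z ∈ SF p F := by
  constructor
  · intro hz
    rw [pcl_eq_TF] at hz
    obtain ⟨n, hn⟩ := (mem_TF p).1 hz
    exact TT_le_SF p F n hn
  · intro hz
    induction hz using Submodule.span_induction with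
    | mem z hz =>
      obtain ⟨T, hT, hz⟩ := hz
      exact pcl_mono (adjoin_simple_le_iff.2 hT) hz
    | zero => exact zero_mem _
    | add u v _ _ hu hv => exact add_mem hu hv
    | smul c u _ hu =>
      change (c : K) * u ∈ pcl p F
      exact mul_mem (le_pcl p F c.2) hu

/-- (1), as finite sums -/
theorem mem_pcl_iff (F : IntermediateField k K) (e : K) : e ∈ pcl p F ↔
    ∃ (N : ℕ) (c T z : Fin N → K), (∀ i, c i ∈ F) ∧ (∀ i, T i ∈ F) ∧
      (∀ i, z i ∈ pcl p (adjoin k {T i})) ∧ e = ∑ i, c i * z i := by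
  rw [mem_pcl_iff_span]
  constructor
  · intro h
    rw [SF, Submodule.mem_span_iff_exists_finset_subset] at h
    obtain ⟨f, t, ht, _, hf⟩ := h
    choose T hT hz using ht
    let σ := t.equivFin
    refine ⟨t.card, fun i => (f (σ.symm i).1 : K), fun i => T (σ.symm i).2,
      fun i => (σ.symm i).1, fun i => (f _).2, fun i => hT _, fun i => hz _, ?_⟩
    rw [← hf, ← Finset.sum_coe_sort]
    exact (Equiv.sum_comp σ.symm (fun a : t => (f a.1 : K) * a.1)).symm
  · rintro ⟨N, c, T, z, hc, hT, hz, rfl⟩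
    refine sum_mem (fun i _ => ?_)
    exact (SF p F).smul_mem (⟨c i, hc i⟩ : F) (Submodule.subset_span ⟨T i, hT i, hz i⟩)

end PX
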